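import Mathlib
import Pool.Agent.K7.H43.GP.Main
import Pool.Agent.Helper947.Geo.A5

set_option autoImplicit false
open scoped LinearAlgebra.Projectivization
open MvPolynomial

/-!
# The degrees of a nondegenerate geproci set of `ℙ^n` are at least `n - 1`

Let `Z` be a finite set of points of `ℙ^n`, `n ≥ 3`, that is not contained in a hyperplane.

* If `Z` is geproci of type `(a_1, …, a_{n-1})`, then all `a_i ≥ n - 1`.
* If `Z` is geproci, then no nonzero form of degree less than `n - 1` vanishes on the projection of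
  `Z` from a general point.
-/

namespace Pool.Agent.Results.MP_efd9e3_ag.LargeDegrees

/-- The projection of `z` from `P` to the hyperplane `H = {x_n = 0}` of `ℙ^n`, in the coordinates
`x_0, …, x_{n-1}` of `H`: these are the first `n` coordinates of `P_n • z - z_n • P`. -/
def proj {n : ℕ} (P z : Fin (n + 1) → ℂ) : Fin n → ℂ :=
  fun i => P (Fin.last n) * z i.castSucc - z (Fin.last n) * P i.castSucc

/-- `I` is the homogeneous ideal of the reduced set `Z_P`: it consists of the polynomials which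
vanish on all vectors representing the points of `Z_P`. -/
def IsIdealOfProjection {n : ℕ} (Z : Finset (ℙ ℂ (Fin (n + 1) → ℂ))) (P : Fin (n + 1) → ℂ)
    (I : Ideal (MvPolynomial (Fin n) ℂ)) : Prop :=
  ∀ f : MvPolynomial (Fin n) ℂ, f ∈ I ↔ ∀ z ∈ Z, ∀ t : ℂ, eval (t • proj P z.rep) f = 0

/-- `Z` is geproci: for a general point `P` (outside of `H` and of the zero set of some nonzero
polynomial `g`) the homogeneous ideal of the reduced set `Z_P` is generated by a regular sequence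
of `n - 1` forms. -/
def IsGeproci {n : ℕ} (Z : Finset (ℙ ℂ (Fin (n + 1) → ℂ))) : Prop :=
  ∃ g : MvPolynomial (Fin (n + 1)) ℂ, g ≠ 0 ∧
    ∀ P : Fin (n + 1) → ℂ, P (Fin.last n) ≠ 0 → eval P g ≠ 0 →
      ∃ F : Fin (n - 1) → MvPolynomial (Fin n) ℂ, (∀ i, ∃ a, (F i).IsHomogeneous a) ∧
        RingTheory.Sequence.IsRegular (MvPolynomial (Fin n) ℂ) (List.ofFn F) ∧
        IsIdealOfProjection Z P (Ideal.span (Set.range F))

/-- `Z` is geproci of type `a = (a_1, …, a_{n-1})`: the forms have the degrees `a_i`. -/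
def IsGeprociOfType {n : ℕ} (Z : Finset (ℙ ℂ (Fin (n + 1) → ℂ))) (a : Fin (n - 1) → ℕ) : Prop :=
  ∃ g : MvPolynomial (Fin (n + 1)) ℂ, g ≠ 0 ∧
    ∀ P : Fin (n + 1) → ℂ, P (Fin.last n) ≠ 0 → eval P g ≠ 0 →
      ∃ F : Fin (n - 1) → MvPolynomial (Fin n) ℂ, (∀ i, (F i).IsHomogeneous (a i)) ∧
        RingTheory.Sequence.IsRegular (MvPolynomial (Fin n) ℂ) (List.ofFn F) ∧
        IsIdealOfProjection Z P (Ideal.span (Set.range F))

/-- `Z` is contained in a hyperplane. -/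
def InHyperplane {n : ℕ} (Z : Finset (ℙ ℂ (Fin (n + 1) → ℂ))) : Prop :=
  ∃ c : Fin (n + 1) → ℂ, c ≠ 0 ∧ ∀ z ∈ Z, ∑ i, c i * z.rep i = 0

theorem rep_pair {d : ℕ} (x y : ℙ ℂ (Fin d → ℂ)) (h : x ≠ y) :
    LinearIndependent ℂ ![x.rep, y.rep] := by
  rw [LinearIndependent.pair_iff]
  intro s t hst
  by_contra hcon
  apply h
  rw [← x.mk_rep, ← y.mk_rep, Projectivization.mk_eq_mk_iff']
  by_cases hs : s = 0
  · subst hs
    rw [zero_smul, zero_add] at hst
    have ht := (smul_eq_zero.mp hst).resolve_right y.rep_nonzero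
    exact absurd ⟨rfl, ht⟩ hcon
  · refine ⟨-(s⁻¹ * t), ?_⟩
    have h1 : s • x.rep = -(t • y.rep) := eq_neg_of_add_eq_zero_left hst
    have h2 : x.rep = s⁻¹ • (s • x.rep) := by rw [smul_smul, inv_mul_cancel₀ hs, one_smul]
    rw [h2, h1, smul_neg, smul_smul, neg_smul]

theorem span_top {n : ℕ} (Z : Finset (ℙ ℂ (Fin (n + 1) → ℂ))) (hdeg : ¬ InHyperplane Z) :
    Submodule.span ℂ (Set.range (fun z : Z => (z : ℙ ℂ (Fin (n + 1) → ℂ)).rep)) = ⊤ := by
  by_contra hne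
  obtain ⟨x, hx⟩ : ∃ x, x ∉ Submodule.span ℂ
      (Set.range (fun z : Z => (z : ℙ ℂ (Fin (n + 1) → ℂ)).rep)) := by
    by_contra hcon
    push Not at hcon
    exact hne (Submodule.eq_top_iff'.mpr hcon)
  obtain ⟨θ, hθ1, hθ2⟩ := Helper947.Geo.card_rel_sep _ x hx
  apply hdeg
  refine ⟨θ, ?_, fun z hz => ?_⟩
  · rintro rfl
    simp at hθ2
  · have h1 := hθ1 _ (Submodule.subset_span ⟨⟨z, hz⟩, rfl⟩)
    rw [dotProduct_comm] at h1
    exact h1

/-- the degrees at a general point -/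
theorem at_general {N : ℕ} (hN : 2 ≤ N) (Z : Finset (ℙ ℂ (Fin (N + 2) → ℂ)))
    (hdeg : ¬ InHyperplane (n := N + 1) Z) :
    ∃ φ : MvPolynomial (Fin (N + 2)) ℂ, φ ≠ 0 ∧ ∀ P : Fin (N + 2) → ℂ, eval P φ ≠ 0 →
      P (Fin.last (N + 1)) ≠ 0 ∧
      ∀ (F : Fin N → MvPolynomial (Fin (N + 1)) ℂ) (a : Fin N → ℕ),
        (∀ i, (F i).IsHomogeneous (a i)) →
        RingTheory.Sequence.IsRegular (MvPolynomial (Fin (N + 1)) ℂ) (List.ofFn F) →
        IsIdealOfProjection (n := N + 1) Z P (Ideal.span (Set.range F)) → ∀ i, N ≤ a i := by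
  classical
  have hsp := span_top (n := N + 1) Z hdeg
  obtain ⟨φ, hφ, hind⟩ := Helper947.Geo.projv_indep
    (fun z : Z => (z : ℙ ℂ (Fin (N + 2) → ℂ)).rep)
    (fun k l hkl => rep_pair k.1 l.1 fun h => hkl (Subtype.ext h))
    (fun k => k.1.rep_nonzero) (by omega : 3 ≤ N + 1) hsp
  obtain ⟨ψ, hψ, hfam⟩ := K7.H43.GP.exists_fam (by omega : 0 < N + 2)
    (fun z : Z => (z : ℙ ℂ (Fin (N + 2) → ℂ)).rep)
  refine ⟨φ * ψ, mul_ne_zero hφ hψ, fun P hP => ?_⟩
  rw [map_mul] at hP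
  obtain ⟨hlast, hpair, hnz, hspP⟩ := hind P (left_ne_zero_of_mul hP)
  refine ⟨hlast, fun F a ha hreg hI i => ?_⟩
  have hI' : Helper947.Geo.IsVan
      (fun k : Z => Helper947.Geo.projv P (k : ℙ ℂ (Fin (N + 2) → ℂ)).rep)
      (Ideal.span (Set.range F)) := by
    intro f
    rw [hI f]
    exact ⟨fun h1 k t => h1 k.1 k.2 t, fun h1 z hz t => h1 ⟨z, hz⟩ t⟩
  exact K7.H43.GP.degrees_ge hN (fun z : Z => (z : ℙ ℂ (Fin (N + 2) → ℂ)).rep) hsp P hlast
    hpair hnz hspP F a ha (Helper947.Geo.isReg_of_isRegular F hreg) hI'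
    (hfam P (right_ne_zero_of_mul hP)) i

/-- **Main theorem.** -/
theorem result (n : ℕ) (hn : 3 ≤ n) (Z : Finset (ℙ ℂ (Fin (n + 1) → ℂ)))
    (hdeg : ¬ InHyperplane Z) :
    (∀ a : Fin (n - 1) → ℕ, IsGeprociOfType Z a → ∀ i, n - 1 ≤ a i) ∧
    (IsGeproci Z → ∃ g : MvPolynomial (Fin (n + 1)) ℂ, g ≠ 0 ∧
      ∀ P : Fin (n + 1) → ℂ, eval P g ≠ 0 →
        ∀ (d : ℕ) (f : MvPolynomial (Fin n) ℂ), f.IsHomogeneous d → f ≠ 0 →
          (∀ z ∈ Z, eval (proj P z.rep) f = 0) → n - 1 ≤ d) := by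
  classical
  obtain ⟨N, rfl⟩ : ∃ N, n = N + 1 := ⟨n - 1, by omega⟩
  have hN : 2 ≤ N := by omega
  obtain ⟨φ, hφ, hgen⟩ := at_general hN Z hdeg
  constructor
  · rintro a ⟨g, hg, hP⟩ i
    obtain ⟨P, hP'⟩ := Helper947.Geo.g4_exists_ne (g * φ) (mul_ne_zero hg hφ)
    rw [map_mul] at hP'
    obtain ⟨hlast, hall⟩ := hgen P (right_ne_zero_of_mul hP')
    obtain ⟨F, hF1, hF2, hF3⟩ := hP P hlast (left_ne_zero_of_mul hP')
    exact hall F a hF1 hF2 hF3 i
  · rintro ⟨g, hg, hP⟩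
    refine ⟨g * φ, mul_ne_zero hg hφ, fun P hP' d f hf hf0 hfZ => ?_⟩
    rw [map_mul] at hP'
    obtain ⟨hlast, hall⟩ := hgen P (right_ne_zero_of_mul hP')
    obtain ⟨F, hF1, hF2, hF3⟩ := hP P hlast (left_ne_zero_of_mul hP')
    choose a ha using hF1
    have h1 := hall F a ha hF2 hF3
    by_contra hlt
    apply hf0
    have hmem : f ∈ Ideal.span (Set.range F) := by
      rw [hF3 f]
      intro z hz t
      rw [Helper947.Geo.rc_eval_smul f d hf, hfZ z hz, mul_zero]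
    obtain ⟨c, hc⟩ := Ideal.mem_span_range_iff_exists_fun.mp hmem
    have h2 : homogeneousComponent d f = f := by
      rw [homogeneousComponent_of_mem ((mem_homogeneousSubmodule d f).mpr hf), if_pos rfl]
    rw [← h2, ← hc, map_sum]
    refine Finset.sum_eq_zero fun i _ => ?_
    rw [mul_comm]
    have h3 := h1 i
    exact TH144.MB.comp_mul_lt (ha i) (c i) (by omega)

end Pool.Agent.Results.MP_efd9e3_ag.LargeDegrees
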